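import Pool.Agent.V11327.RMbdry

/-!
# The root-evaluation matrix of a periodic random walk is square and non-singular

Write `Y_0 = X_N, Y_1 = X_1, …`, `a_j` for the law of `Y_j - m`, `M = -D` and `g` for the generating
function of the sum of the `Y_j - m`, so that `H(s) = g(s) - s^M = s^M (G_{S_N}(s) - 1)`. The bounded
sequences `b` with `∑ g_k b_{n+k} = b_{n+M}` form a shift-invariant space `V`. Solving the Dirichlet
problem by monotone iteration gives `dim V ≥ M`; the exponential-polynomial sequences
`C(n,t) α^{n-t}` (`α` a zero of `H` in the closed disc, `t` less than its multiplicity) form a basis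
of `V` (generalised eigenspaces of the shift). Pairing `b` with the functions `s^M φ_{j,c}` is an
injective map `V → ℂ^{(j,c)}`: if all pairings vanish, the averaged sequences are harmonic for the
killed walk, which has negative drift, and a maximum principle with a linear supersolution shows
that they vanish. Hence `dim V = M`, the pairing is bijective, and the matrix is square with trivial
kernel.
-/

set_option autoImplicit false

open MeasureTheory ProbabilityTheory V11327.RootMatrix

namespace Pool.Agent.Results.MP_432bca_pr.NonSingular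

/-- The matrix `A` has `-D` rows and `-D` columns, and it is non-singular. -/
theorem result {Ω : Type*} [MeasurableSpace Ω] (P : Measure Ω) (n : ℕ)
    (X : Fin (n + 1) → Ω → ℤ) (m : Fin (n + 1) → ℤ) (h : Setting P X m) :
    (∀ α : Root P X, ‖α.1‖ < 1 →
      analyticOrderAt (fun s => genFun P (total X) s - 1) α.1 ≠ ⊤) ∧
    (∀ α : Root P X, ‖α.1‖ = 1 →
      HasDerivWithinAt (genFun P (total X))
        (((∫ ω, ((∑ j, X j ω : ℤ) : ℝ) ∂P : ℝ) : ℂ) / α.1) (Metric.closedBall 0 1) α.1 ∧
      ((∫ ω, ((∑ j, X j ω : ℤ) : ℝ) ∂P : ℝ) : ℂ) / α.1 ≠ 0) ∧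
    (Finite (Row P X) ∧ Nat.card (Row P X) = (-∑ j, m j).toNat ∧
      Nat.card (Col m) = (-∑ j, m j).toNat) ∧
    ∀ E : Row P X ≃ Col m, ((A P X m).reindex E (Equiv.refl _)).det ≠ 0 :=
  main h

end Pool.Agent.Results.MP_432bca_pr.NonSingular
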